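import Pool.Agent.H18.VZ.Targets
import Pool.Agent.H58.HX.WPO
import Pool.Agent.H30.HX.MonY
import Pool.Agent.H58.HIT.HEN

/-!
# Power series points over a general hypersurface
-/

set_option autoImplicit false

open MvPolynomial
open Pool.Agent.H12.ZD (pmap)
open Pool.Agent.H18.HIT Pool.Agent.H18.HX Pool.Agent.H18.VZ

namespace Pool.Agent.H94.VZ

theorem ag_roots {κ : Type} [Field κ] [IsAlgClosed κ] (Q : Polynomial κ) (hQ : Q.Monic) (r : ℕ)
    (hr : Q.natDegree = r) (hs : Q.Separable) :
    ∃ α : Fin r → κ, Function.Injective α ∧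
      Q = ∏ a, (Polynomial.X - Polynomial.C (α a)) := by
  classical
  have h1 : Q.Splits := IsAlgClosed.splits Q
  have h2 : Q = (Q.roots.map fun a => Polynomial.X - Polynomial.C a).prod :=
    h1.eq_prod_roots_of_monic hQ
  have h3 : Q.roots.Nodup := Polynomial.nodup_roots hs
  have h4 : Q.roots.toFinset.card = r := by
    rw [Multiset.toFinset_card_of_nodup h3, ← hr, h1.natDegree_eq_card_roots]
  let E := Finset.equivFinOfCardEq h4
  refine ⟨fun a => (E.symm a).1, fun a b h => E.symm.injective (Subtype.ext h), ?_⟩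
  rw [E.symm.prod_comp (fun x : Q.roots.toFinset => Polynomial.X - Polynomial.C (x : κ)),
    Finset.prod_coe_sort Q.roots.toFinset (fun x => Polynomial.X - Polynomial.C x)]
  conv_lhs => rw [h2]
  rw [Finset.prod, Multiset.toFinset_val, Multiset.dedup_eq_self.2 h3]

theorem ag_eval {N : ℕ} {k κ : Type} [Field k] [Field κ] [Algebra k κ] (τ : Fin N → κ) (ξ : κ)
    (c : Po (N + 1) k) : aeval (Fin.cons ξ τ : Fin (N + 1) → κ) c =
      ((finSuccEquiv k N c).map (aeval τ : Po N k →ₐ[k] κ).toRingHom).eval ξ := by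
  induction c using MvPolynomial.induction_on with
  | C a =>
    rw [aeval_C, finSuccEquiv_apply]
    simp
  | add p q hp hq => rw [map_add, hp, hq, map_add, Polynomial.map_add, Polynomial.eval_add]
  | mul_X p i hp =>
    rw [map_mul, hp, map_mul, Polynomial.map_mul, Polynomial.eval_mul, aeval_X]
    congr 1
    refine Fin.cases ?_ (fun j => ?_) i
    · rw [finSuccEquiv_X_zero]
      simp
    · rw [finSuccEquiv_X_succ]
      simp

theorem pf_AG (hKAP : T_KAP) (hARC : Pool.Agent.H18.VZ.T_ARC) : T_AG := by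
  intro N r k _ _ _ P q ρ A B hP hq hρ hqρ
  obtain ⟨κ, iκ, iAc, iA, τ, i₀, hτ, hpd, hder, hH⟩ := hKAP N k q hq
  let g : Fin N → PowerSeries κ := fun l => PowerSeries.C (τ l) +
    (if l = i₀ then PowerSeries.X ^ 1 else 0)
  let G : Po N k →ₐ[k] PowerSeries κ := aeval g
  let Qs : Polynomial (PowerSeries κ) := (finSuccEquiv k N P).map G.toRingHom
  have hmon : (finSuccEquiv k N P).Monic := hP.mon
  have hQs : Qs.Monic := hmon.map _
  let e : Po N k →ₐ[k] κ := aeval τ
  have hg : ∀ l, PowerSeries.constantCoeff (g l) = τ l := by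
    intro l
    show PowerSeries.constantCoeff (PowerSeries.C (τ l) +
      (if l = i₀ then PowerSeries.X ^ 1 else 0)) = τ l
    split_ifs <;> simp
  have he : ∀ c, PowerSeries.constantCoeff (G c) = e c := by
    intro c
    induction c using MvPolynomial.induction_on with
    | C a =>
      show PowerSeries.constantCoeff (aeval g (C a)) = aeval τ (C a)
      rw [aeval_C, aeval_C, PowerSeries.algebraMap_apply, PowerSeries.constantCoeff_C]
    | add p q hp hq => rw [map_add, map_add, hp, hq, map_add]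
    | mul_X p i hp =>
      rw [map_mul, map_mul, hp, map_mul]
      congr 1
      show PowerSeries.constantCoeff (aeval g (X i)) = aeval τ (X i)
      rw [aeval_X, aeval_X, hg]
  let Q0 : Polynomial κ := (finSuccEquiv k N P).map e.toRingHom
  have hQ0 : Q0.Monic := hmon.map _
  have h0 : Qs.map PowerSeries.constantCoeff = Q0 := by
    show ((finSuccEquiv k N P).map G.toRingHom).map PowerSeries.constantCoeff = _
    rw [Polynomial.map_map]
    congr 1
    ext c
    · simp [PowerSeries.algebraMap_apply]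
    · exact he _
  have hdeg : Q0.natDegree = r := by
    show ((finSuccEquiv k N P).map e.toRingHom).natDegree = r
    rw [hmon.natDegree_map]
    exact Pool.Agent.H30.HX.natDeg_of hP.hom hP.mon
  have hsep : Q0.Separable := by
    have hne : e ρ ≠ 0 := fun h => hqρ ((hτ ρ).1 h)
    have h1 := congrArg (fun c => (finSuccEquiv k N c).map e.toRingHom) hρ
    simp only [map_add, map_mul, Polynomial.map_add, Polynomial.map_mul] at h1
    rw [show up ρ = rename Fin.succ ρ from rfl, Pool.Agent.H58.HX.wpo_fse_up,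
      Pool.Agent.H58.HX.wpo_fse_pd, Polynomial.map_C, ← Polynomial.derivative_map] at h1
    refine ⟨Polynomial.C (e ρ)⁻¹ * (finSuccEquiv k N A).map e.toRingHom,
      Polynomial.C (e ρ)⁻¹ * (finSuccEquiv k N B).map e.toRingHom, ?_⟩
    have h2 : Polynomial.C (e ρ)⁻¹ * Polynomial.C (e ρ) = 1 := by
      rw [← Polynomial.C_mul, inv_mul_cancel₀ hne, Polynomial.C_1]
    rw [mul_assoc, mul_assoc, ← mul_add, ← h2]
    congr 1
    exact h1.symm
  obtain ⟨α, hα, hα'⟩ := ag_roots Q0 hQ0 r hdeg hsep
  obtain ⟨x, hx, hx'⟩ := Pool.Agent.H58.HIT.pf_HEN κ r Qs α hQs (h0.trans hα')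
    (fun a b hab => IsUnit.mk0 _ (sub_ne_zero.2 (hα.ne hab)))
  obtain ⟨ψ, hS, hψ0, hψs, -, hψ1⟩ := hARC N r 1 k κ P q τ i₀ x hP hq le_rfl hτ hpd hder hx'
  have hrd : ∀ j (c : Po (N + 1) k), rd (ψ j) c =
      aeval (Fin.cons (α j) τ : Fin (N + 1) → κ) c := by
    intro j c
    show PowerSeries.constantCoeff (ψ j c) = _
    induction c using MvPolynomial.induction_on with
    | C a =>
      rw [aeval_C, show ψ j (C a) = algebraMap k (PowerSeries κ) a from (ψ j).commutes a,
        PowerSeries.algebraMap_apply, PowerSeries.constantCoeff_C]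
    | add p q hp hq => rw [map_add, map_add, hp, hq, map_add]
    | mul_X p i hp =>
      rw [map_mul, map_mul, hp, map_mul]
      congr 1
      rw [aeval_X]
      refine Fin.cases ?_ (fun l => ?_) i
      · rw [hψ0, hx, Fin.cons_zero]
      · rw [hψs, Fin.cons_succ]
        exact hg l
  have hnz : ∀ j, rd (ψ j) (pderiv 0 P) ≠ 0 := by
    intro j h1
    have h2 : rd (ψ j) (up ρ) ≠ 0 := fun h => hqρ ((hS.iff j ρ).1 h)
    apply h2
    show PowerSeries.constantCoeff (ψ j (up ρ)) = 0
    have h3 : ψ j P = 0 := (hS.arc j P).2 dvd_rfl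
    rw [hρ, map_add, map_mul, map_mul, h3, mul_zero, zero_add, map_mul,
      show PowerSeries.constantCoeff (ψ j (pderiv 0 P)) = 0 from h1, mul_zero]
  refine ⟨κ, iκ, iA, ψ, hS, fun j => (hψ1 rfl j).1, fun j l c c' hcc =>
    (hψ1 rfl j).2 (hnz j) l c c' hcc, ?_⟩
  · intro H hPH
    obtain ⟨ξ, hξ⟩ := hH P H hP.mon hPH
    have h1 : aeval (Fin.cons ξ τ : Fin (N + 1) → κ) P = 0 := (hξ P).2 hPH.mem
    rw [ag_eval] at h1
    have h2 : (∏ a, (Polynomial.X - Polynomial.C (α a))).eval ξ = 0 := by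
      rw [← hα']
      exact h1
    rw [Polynomial.eval_prod, Finset.prod_eq_zero_iff] at h2
    obtain ⟨a, -, ha⟩ := h2
    rw [Polynomial.eval_sub, Polynomial.eval_X, Polynomial.eval_C, sub_eq_zero] at ha
    refine ⟨a, fun c => ?_⟩
    rw [hrd, ← ha]
    exact hξ c

end Pool.Agent.H94.VZ
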