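import Pool.Agent.H94.VZ.LCH1

/-!
# Logarithmic forms in all directions
-/

set_option autoImplicit false

open MvPolynomial
open Pool.Agent.H12.ZD (pmap)
open Pool.Agent.H18.HIT Pool.Agent.H18.HX Pool.Agent.H18.VZ

namespace Pool.Agent.H94.VZ

section

variable {N : ℕ} {k : Type} [Field k]

theorem sb_inv {M M' : Matrix (Fin N) (Fin N) k} (h : M * M' = 1) (c : Po (N + 1) k) :
    sb M' (sb M c) = c := by
  rw [sb_sb, h, sb_one]

theorem sb0_inv {M M' : Matrix (Fin N) (Fin N) k} (h : M * M' = 1) (c : Po N k) :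
    sb0 M' (sb0 M c) = c := by
  rw [sb0_sb0, h, sb0_one]

theorem sb_irr {M M' : Matrix (Fin N) (Fin N) k} (h : M * M' = 1) (h' : M' * M = 1)
    {c : Po (N + 1) k} (hc : Irreducible c) : Irreducible (sb M c) := by
  let e : Po (N + 1) k ≃ₐ[k] Po (N + 1) k := AlgEquiv.ofAlgHom (sb M) (sb M')
    (AlgHom.ext fun c => sb_inv h' c) (AlgHom.ext fun c => sb_inv h c)
  exact (MulEquiv.irreducible_iff (e : Po (N + 1) k ≃* Po (N + 1) k)).2 hc

theorem sb0_irr {M M' : Matrix (Fin N) (Fin N) k} (h : M * M' = 1) (h' : M' * M = 1)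
    {c : Po N k} (hc : Irreducible c) : Irreducible (sb0 M c) := by
  let e : Po N k ≃ₐ[k] Po N k := AlgEquiv.ofAlgHom (sb0 M) (sb0 M')
    (AlgHom.ext fun c => sb0_inv h' c) (AlgHom.ext fun c => sb0_inv h c)
  exact (MulEquiv.irreducible_iff (e : Po N k ≃* Po N k)).2 hc

theorem up_add (a b : Po N k) : up (a + b) = up a + up b := map_add _ _ _

theorem up_mul (a b : Po N k) : up (a * b) = up a * up b := map_mul _ _ _

theorem up_sum {J : Type} (s : Finset J) (f : J → Po N k) :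
    up (∑ j ∈ s, f j) = ∑ j ∈ s, up (f j) := map_sum _ _ _

/-- the sum over the inverse matrix -/
theorem sum_inv {M M' : Matrix (Fin N) (Fin N) k} (h : M * M' = 1) (j : Fin N)
    {S : Type} [CommRing S] (f : k →+* S) (c : Fin N → S) :
    ∑ l, f (M' l j) * ∑ i, f (M i l) * c i = c j := by
  simp_rw [Finset.mul_sum]
  rw [Finset.sum_comm]
  have h1 : ∀ i, ∑ l, f (M' l j) * (f (M i l) * c i) = f ((1 : Matrix (Fin N) (Fin N) k) i j) *
      c i := by
    intro i
    rw [← h, Matrix.mul_apply, map_sum, Finset.sum_mul]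
    refine Finset.sum_congr rfl fun l _ => ?_
    rw [map_mul]
    ring
  simp_rw [h1]
  rw [Finset.sum_eq_single j]
  · simp
  · intro i _ hi
    rw [Matrix.one_apply_ne hi, map_zero, zero_mul]
  · intro h2
    exact absurd (Finset.mem_univ j) h2

/-- the change of the coordinates of the hypersurface -/
theorem frm_pdv {M M' : Matrix (Fin N) (Fin N) k} (h : M * M' = 1) (h' : M' * M = 1)
    {P : Po (N + 1) k} {H : Ideal (Po (N + 1) k)} {q : Po N k} (hP : Pdv P H q) :
    Pdv (sb M P) (H.comap (sb M').toRingHom) (sb0 M q) := by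
  have hpr := hP.prime
  refine ⟨Ideal.comap_isPrime _ _, ?_, sb0_irr h h' hP.irr, fun c => ?_⟩
  · rw [Ideal.mem_comap]
    show sb M' (sb M P) ∈ H
    rw [sb_inv h]
    exact hP.mem
  · rw [Ideal.mem_comap]
    show sb M' (up c) ∈ H ↔ _
    rw [sb_up, hP.iff]
    constructor
    · intro hd
      have h1 := map_dvd (sb0 M) hd
      rwa [sb0_inv h'] at h1
    · intro hd
      have h1 := map_dvd (sb0 M') hd
      rwa [sb0_inv h] at h1

theorem frm_hyp {M M' : Matrix (Fin N) (Fin N) k} (h : M * M' = 1) (h' : M' * M = 1)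
    {P : Po (N + 1) k} {r : ℕ} (hP : Hyp P r) : Hyp (sb M P) r := by
  refine ⟨sb_hom M hP.hom, ?_, sb_irr h h' hP.irr⟩
  have h1 : (finSuccEquiv k N P).Monic := hP.mon
  show (finSuccEquiv k N (sb M P)).Monic
  rw [sb_fse]
  exact h1.map _

theorem frm_hmi (M' : Matrix (Fin N) (Fin N) k) {H : Ideal (Po (N + 1) k)} (hH : Hmi H) :
    Hmi (H.comap (sb M').toRingHom) := by
  intro c hc t
  rw [Ideal.mem_comap] at hc ⊢
  show sb M' (homogeneousComponent t c) ∈ H
  rw [← sb_hc]
  exact hH _ hc t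

theorem frm_arc {κ : Type} [Field κ] [Algebra k κ] {M M' : Matrix (Fin N) (Fin N) k}
    (h : M * M' = 1) (h' : M' * M = 1) {P : Po (N + 1) k}
    {ψ : Po (N + 1) k →ₐ[k] PowerSeries κ} (hψ : Arc P ψ) : Arc (sb M P) (ψ.comp (sb M')) := by
  intro c
  show ψ (sb M' c) = 0 ↔ _
  rw [hψ]
  constructor
  · intro hd
    have h1 := map_dvd (sb M) hd
    rwa [sb_inv h'] at h1
  · intro hd
    have h1 := map_dvd (sb M') hd
    rwa [sb_inv h] at h1

theorem frm_pos {h : Po N k} (hh : Irreducible h) : 1 ≤ N := by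
  by_contra hN
  have h0 : N = 0 := by omega
  subst h0
  apply hh.not_isUnit
  rw [MvPolynomial.eq_C_of_isEmpty h]
  refine IsUnit.map C (isUnit_iff_ne_zero.2 fun h1 => hh.ne_zero ?_)
  rw [MvPolynomial.eq_C_of_isEmpty h, h1, C_0]

end

theorem pf_FRM (hDIR : T_DIR) : T_FRM := by
  classical
  intro N r k _ _ _ P H h hP hPH hH
  obtain ⟨M, hM, hMh⟩ := exists_mat h hPH.irr.ne_zero
  obtain ⟨M', hMM, hMM'⟩ : ∃ M' : Matrix (Fin N) (Fin N) k, M * M' = 1 ∧ M' * M = 1 :=
    ⟨M⁻¹, Matrix.mul_nonsing_inv M hM, Matrix.nonsing_inv_mul M hM⟩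
  have hN := frm_pos hPH.irr
  have hP' := frm_hyp hMM hMM' hP
  have hPH' := frm_pdv hMM hMM' hPH
  have hH' := frm_hmi M' hH
  have hev : ∀ l : Fin N, eval (Pi.single l 1) (sb0 M h) ≠ 0 := by
    intro l
    rw [eval_sb0]
    have e : (fun i => ∑ j, M i j * (Pi.single l (1 : k) : Fin N → k) j) = fun i => M i l := by
      funext i
      rw [Finset.sum_eq_single l]
      · simp
      · intro j _ hj
        simp [hj]
      · intro h2
        exact absurd (Finset.mem_univ l) h2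
    rw [e]
    exact hMh l
  have hdir := fun l => hDIR N r k (sb M P) _ (sb0 M h) l hP' hPH' hH' (hev l)
  choose a' w' m hD hw ha using hdir
  let W : Po (N + 1) k := ∏ l, w' l
  let R : Fin N → Po (N + 1) k := fun l => ∏ l' ∈ Finset.univ.erase l, w' l'
  have hW : ∀ l, W = w' l * R l := fun l =>
    (Finset.mul_prod_erase Finset.univ w' (Finset.mem_univ l)).symm
  let M1 : ℕ := ∑ l, (m l + 1) - 1
  have hM1 : ∑ l, (m l + 1) = M1 + 1 := by
    have h1 : m ⟨0, hN⟩ + 1 ≤ ∑ l, (m l + 1) :=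
      Finset.single_le_sum (f := fun l => m l + 1) (fun _ _ => Nat.zero_le _) (Finset.mem_univ _)
    show _ = ∑ l, (m l + 1) - 1 + 1
    omega
  have hWh : W.IsHomogeneous (M1 + 1) := by
    rw [← hM1]
    exact IsHomogeneous.prod _ _ _ fun l _ => hw l
  have hRh : ∀ l, (a' l * R l).IsHomogeneous M1 := by
    intro l
    have h1 : (R l).IsHomogeneous (∑ l' ∈ Finset.univ.erase l, (m l' + 1)) :=
      IsHomogeneous.prod _ _ _ fun l _ => hw l
    have h2 := (ha l).mul h1
    have h3 : m l + 1 + ∑ l' ∈ Finset.univ.erase l, (m l' + 1) = M1 + 1 := by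
      rw [← hM1]
      exact Finset.add_sum_erase Finset.univ (fun l => m l + 1) (Finset.mem_univ l)
    have h4 : m l + ∑ l' ∈ Finset.univ.erase l, (m l' + 1) = M1 := by omega
    rwa [h4] at h2
  have hup : ∀ c : Po N k, sb M' (up (sb0 M c)) = up c := fun c => by rw [sb_up, sb0_inv hMM]
  have hpd : sb M' (pderiv 0 (sb M P)) = pderiv 0 P := by rw [pd0_sb, sb_inv hMM]
  have he1 : ∀ {κ : Type} [Field κ] [Algebra k κ] {ψ : Po (N + 1) k →ₐ[k] PowerSeries κ}
      {l : Fin N}, ψ (sb M' W) = ψ (sb M' (w' l)) * ψ (sb M' (R l)) := by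
    intro κ _ _ ψ l
    rw [hW l, map_mul, map_mul]
  have he2 : ∀ {κ : Type} [Field κ] [Algebra k κ] {ψ : Po (N + 1) k →ₐ[k] PowerSeries κ}
      {l : Fin N}, ψ (pderiv 0 P * sb M' (a' l * R l)) =
        ψ (sb M' (pderiv 0 (sb M P) * a' l)) * ψ (sb M' (R l)) := by
    intro κ _ _ ψ l
    rw [← map_mul ψ, ← map_mul (sb M'), mul_assoc, map_mul (sb M') (pderiv 0 (sb M P)), hpd]
  refine ⟨fun j => ∑ l, C (M' l j) * sb M' (a' l * R l), sb M' W, M1, ?_, sb_hom M' hWh,
    fun j => ?_, ?_, ?_, ?_⟩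
  · intro hd
    have h1 := map_dvd (sb M) hd
    rw [sb_inv hMM'] at h1
    obtain ⟨l, -, hl⟩ := (hP'.irr.prime.dvd_finsetProd_iff _).1 h1
    exact (hD l).ne hl
  · refine IsHomogeneous.sum _ _ _ fun l _ => ?_
    have h1 := (isHomogeneous_C (Fin (N + 1)) (M' l j)).mul (sb_hom M' (hRh l))
    rwa [zero_add] at h1
  · intro κ _ _ ψ hψ hc j
    obtain ⟨c, hcH, hc⟩ := hc
    have hψ' := frm_arc hMM hMM' hψ
    have h1 : ∀ l, ψ (sb M' W) ∣ ψ (pderiv 0 P * sb M' (a' l * R l)) := by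
      intro l
      have h2 := (hD l).reg κ (ψ.comp (sb M')) hψ' ⟨sb M c, by
        rw [Ideal.mem_comap]
        show sb M' (sb M c) ∈ H
        rw [sb_inv hMM]
        exact hcH, by
        show PowerSeries.constantCoeff (ψ (sb M' (sb M c))) ≠ 0
        rw [sb_inv hMM]
        exact hc⟩
      have h3 : ψ (sb M' (w' l)) ∣ ψ (sb M' (pderiv 0 (sb M P) * a' l)) := h2
      rw [he1 (l := l), he2]
      exact mul_dvd_mul h3 dvd_rfl
    rw [Finset.mul_sum, map_sum]
    refine Finset.dvd_sum fun l _ => ?_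
    rw [mul_left_comm, map_mul]
    exact (h1 l).mul_left _
  · intro κ _ _ ψ hψ hc hx j
    have hψ' := frm_arc hMM hMM' hψ
    have h1 : ∀ l, ψ (sb M' W * up h) ∣ ψ (sb M' (a' l * R l) * up h -
        sb M' W * sb M' (up (pderiv l (sb0 M h)))) := by
      intro l
      have h2 := (hD l).res κ (ψ.comp (sb M')) hψ' (fun c => hc (sb M' c)) (by
        show PowerSeries.constantCoeff (ψ (sb M' (pderiv 0 (sb M P)))) ≠ 0
        rw [hpd]
        exact hx)
      have h3 : ψ (sb M' (w' l * up (sb0 M h))) ∣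
          ψ (sb M' (a' l * up (sb0 M h) - w' l * up (pderiv l (sb0 M h)))) := h2
      have h4 : sb M' W * up h = sb M' (w' l * up (sb0 M h)) * sb M' (R l) := by
        rw [hW l, map_mul, map_mul, hup]
        ring
      have h5 : sb M' (a' l * R l) * up h - sb M' W * sb M' (up (pderiv l (sb0 M h))) =
          sb M' (a' l * up (sb0 M h) - w' l * up (pderiv l (sb0 M h))) * sb M' (R l) := by
        rw [hW l, map_sub, map_mul, map_mul, map_mul, map_mul, hup]
        ring
      rw [h4, h5, map_mul ψ, map_mul ψ]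
      exact mul_dvd_mul h3 dvd_rfl
    have h6 : (∑ l, C (M' l j) * sb M' (a' l * R l)) * up h - sb M' W * up (pderiv j h) =
        ∑ l, C (M' l j) * (sb M' (a' l * R l) * up h -
          sb M' W * sb M' (up (pderiv l (sb0 M h)))) := by
      have h7 : ∀ l, sb M' (up (pderiv l (sb0 M h))) = ∑ i, C (M i l) * up (pderiv i h) := by
        intro l
        rw [pd_sb0, up_sum, map_sum]
        refine Finset.sum_congr rfl fun i _ => ?_
        rw [up_mul, map_mul, hup, up_C, sb_C]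
      have h8 := sum_inv hMM j (C : k →+* Po (N + 1) k) (fun i => up (pderiv i h))
      rw [← h8, Finset.mul_sum, Finset.sum_mul, ← Finset.sum_sub_distrib]
      refine Finset.sum_congr rfl fun l _ => ?_
      rw [h7]
      ring
    rw [h6, map_sum]
    refine Finset.dvd_sum fun l _ => ?_
    rw [map_mul ψ (C (M' l j))]
    exact (h1 l).mul_left _
  · intro κ _ _ ψ hψ B hB j
    have hψ' := frm_arc hMM hMM' hψ
    have h1 : ∀ l, ψ (sb M' W) ∣ PowerSeries.X ^ B * ψ (pderiv 0 P * sb M' (a' l * R l)) := by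
      intro l
      have h2 := (hD l).bnd κ (ψ.comp (sb M')) hψ' B (fun g => by
        show ψ (sb M' (up g)) ∣ PowerSeries.X ^ B * ψ (sb M' (up (pderiv l g)))
        have e : g = sb0 M (sb0 M' g) := (sb0_inv hMM' g).symm
        rw [e, pd_sb0, up_sum, map_sum, map_sum, Finset.mul_sum, hup]
        refine Finset.dvd_sum fun i _ => ?_
        rw [up_mul, map_mul, hup, map_mul, mul_left_comm]
        exact (hB i (sb0 M' g)).mul_left _)
      have h3 : ψ (sb M' (w' l)) ∣
          PowerSeries.X ^ B * ψ (sb M' (pderiv 0 (sb M P) * a' l)) := h2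
      rw [he1 (l := l), he2, ← mul_assoc]
      exact mul_dvd_mul h3 dvd_rfl
    rw [Finset.mul_sum, map_sum, Finset.mul_sum]
    refine Finset.dvd_sum fun l _ => ?_
    rw [mul_left_comm, map_mul, mul_left_comm]
    exact (h1 l).mul_left _

end Pool.Agent.H94.VZ
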