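import Pool.Agent.H18.VZ.Targets
import Pool.Agent.H58.HX.WPO

/-!
# Linear changes of the coordinates `t_i`
-/

set_option autoImplicit false

open MvPolynomial
open Pool.Agent.H12.ZD (pmap)
open Pool.Agent.H18.HIT Pool.Agent.H18.HX Pool.Agent.H18.VZ

namespace Pool.Agent.H94.VZ

section

variable {N : ℕ} {k : Type} [Field k]

/-- the substitution in the space of the `t_i` -/
noncomputable def sb0 (M : Matrix (Fin N) (Fin N) k) : Po N k →ₐ[k] Po N k :=
  aeval fun i => ∑ j, C (M i j) * X j

/-- the substitution in `X 0` and the `t_i` -/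
noncomputable def sb (M : Matrix (Fin N) (Fin N) k) : Po (N + 1) k →ₐ[k] Po (N + 1) k :=
  aeval (Fin.cons (X 0) fun i => ∑ j, C (M i j) * X j.succ : Fin (N + 1) → Po (N + 1) k)

variable (M M' : Matrix (Fin N) (Fin N) k)

theorem sb0_X (i : Fin N) : sb0 M (X i) = ∑ j, C (M i j) * X j := by
  rw [sb0, aeval_X]

theorem sb_X0 : sb M (X 0) = X 0 := by
  rw [sb, aeval_X, Fin.cons_zero]

theorem sb_X (i : Fin N) : sb M (X i.succ) = ∑ j, C (M i j) * X j.succ := by
  rw [sb, aeval_X, Fin.cons_succ]

theorem sb0_C (a : k) : sb0 M (C a) = C a := (sb0 M).commutes a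

theorem sb_C (a : k) : sb M (C a) = C a := (sb M).commutes a

theorem up_C (a : k) : up (N := N) (C a) = C a := by
  rw [up, rename_C]

theorem sb_up (c : Po N k) : sb M (up c) = up (sb0 M c) := by
  unfold up
  induction c using MvPolynomial.induction_on with
  | C a => rw [rename_C, sb_C, sb0_C, rename_C]
  | add p q hp hq => rw [map_add, map_add, hp, hq, map_add, map_add]
  | mul_X p i hp =>
    rw [map_mul, map_mul, hp, map_mul, map_mul, rename_X, sb_X, sb0_X]
    simp [map_sum]

theorem sb0_sb0 (c : Po N k) : sb0 M' (sb0 M c) = sb0 (M * M') c := by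
  induction c using MvPolynomial.induction_on with
  | C a => rw [sb0_C, sb0_C, sb0_C]
  | add p q hp hq => rw [map_add, map_add, hp, hq, map_add]
  | mul_X p i hp =>
    rw [map_mul, map_mul, hp, map_mul, sb0_X, sb0_X, map_sum]
    refine congrArg₂ (· * ·) rfl ?_
    simp_rw [map_mul, sb0_C, sb0_X, Matrix.mul_apply, map_sum, Finset.sum_mul, Finset.mul_sum]
    rw [Finset.sum_comm]
    refine Finset.sum_congr rfl fun j _ => Finset.sum_congr rfl fun l _ => ?_
    rw [C_mul, mul_assoc]

theorem sb0_one (c : Po N k) : sb0 (1 : Matrix (Fin N) (Fin N) k) c = c := by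
  have h : sb0 (1 : Matrix (Fin N) (Fin N) k) = AlgHom.id k _ := by
    apply algHom_ext
    intro i
    rw [sb0_X]
    simp [Matrix.one_apply]
  rw [h]
  rfl

theorem sb_sb (c : Po (N + 1) k) : sb M' (sb M c) = sb (M * M') c := by
  induction c using MvPolynomial.induction_on with
  | C a => rw [sb_C, sb_C, sb_C]
  | add p q hp hq => rw [map_add, map_add, hp, hq, map_add]
  | mul_X p i hp =>
    rw [map_mul, map_mul, hp, map_mul]
    refine congrArg₂ (· * ·) rfl ?_
    refine Fin.cases ?_ (fun i => ?_) i
    · rw [sb_X0, sb_X0, sb_X0]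
    · rw [sb_X, sb_X, map_sum]
      simp_rw [map_mul, sb_C, sb_X, Matrix.mul_apply, map_sum, Finset.sum_mul, Finset.mul_sum]
      rw [Finset.sum_comm]
      refine Finset.sum_congr rfl fun j _ => Finset.sum_congr rfl fun l _ => ?_
      rw [C_mul, mul_assoc]

theorem sb_one (c : Po (N + 1) k) : sb (1 : Matrix (Fin N) (Fin N) k) c = c := by
  have h : sb (1 : Matrix (Fin N) (Fin N) k) = AlgHom.id k _ := by
    apply algHom_ext
    intro i
    refine Fin.cases ?_ (fun i => ?_) i
    · rw [sb_X0]
      rfl
    · rw [sb_X]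
      simp [Matrix.one_apply]
  rw [h]
  rfl

theorem sb_hom {n : ℕ} {c : Po (N + 1) k} (h : c.IsHomogeneous n) :
    (sb M c).IsHomogeneous n := by
  have h1 := h.aeval (n := 1) (Fin.cons (X 0) fun i => ∑ j, C (M i j) * X j.succ :
    Fin (N + 1) → Po (N + 1) k) ?_
  · rwa [one_mul] at h1
  · intro i
    refine Fin.cases ?_ (fun i => ?_) i
    · rw [Fin.cons_zero]
      exact isHomogeneous_X _ _
    · rw [Fin.cons_succ]
      refine IsHomogeneous.sum _ _ _ fun j _ => ?_
      have h2 := (isHomogeneous_C (Fin (N + 1)) (M i j)).mul (isHomogeneous_X k j.succ)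
      rwa [zero_add] at h2

theorem sb_hc (t : ℕ) (c : Po (N + 1) k) :
    homogeneousComponent t (sb M c) = sb M (homogeneousComponent t c) := by
  conv_lhs => rw [← sum_homogeneousComponent c, map_sum, map_sum]
  have h1 : ∀ i, homogeneousComponent t (sb M (homogeneousComponent i c)) =
      if t = i then sb M (homogeneousComponent i c) else 0 := fun i =>
    homogeneousComponent_of_mem (sb_hom M (homogeneousComponent_isHomogeneous i c))
  simp_rw [h1]
  rw [Finset.sum_ite_eq]
  split_ifs with h
  · rfl
  · rw [Finset.mem_range] at h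
    rw [homogeneousComponent_eq_zero _ _ (by omega), map_zero]

theorem sb_fse (c : Po (N + 1) k) :
    finSuccEquiv k N (sb M c) = (finSuccEquiv k N c).map (sb0 M).toRingHom := by
  induction c using MvPolynomial.induction_on with
  | C a =>
    rw [sb_C, finSuccEquiv_apply]
    simp
  | add p q hp hq => rw [map_add, map_add, hp, hq, map_add, Polynomial.map_add]
  | mul_X p i hp =>
    rw [map_mul, map_mul, hp, map_mul, Polynomial.map_mul]
    refine congrArg₂ (· * ·) rfl ?_
    refine Fin.cases ?_ (fun i => ?_) i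
    · rw [sb_X0, finSuccEquiv_X_zero, Polynomial.map_X]
    · rw [finSuccEquiv_X_succ, Polynomial.map_C,
        show X i.succ = rename Fin.succ (X i : Po N k) from (rename_X _ _).symm,
        show sb M (rename Fin.succ (X i : Po N k)) = rename Fin.succ (sb0 M (X i)) from sb_up M _,
        Pool.Agent.H58.HX.wpo_fse_up]
      rfl

theorem pd0_sb (c : Po (N + 1) k) : pderiv 0 (sb M c) = sb M (pderiv 0 c) := by
  induction c using MvPolynomial.induction_on with
  | C a => rw [sb_C, pderiv_C, map_zero]
  | add p q hp hq => rw [map_add, map_add, hp, hq, map_add, map_add]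
  | mul_X p i hp =>
    rw [map_mul, pderiv_mul, hp, pderiv_mul, map_add, map_mul, map_mul]
    refine congrArg₂ (· + ·) rfl (congrArg₂ (· * ·) rfl ?_)
    refine Fin.cases ?_ (fun i => ?_) i
    · rw [sb_X0, pderiv_X_self, map_one]
    · rw [sb_X, map_sum, pderiv_X_of_ne (Fin.succ_ne_zero i), map_zero]
      refine Finset.sum_eq_zero fun j _ => ?_
      rw [pderiv_C_mul, pderiv_X_of_ne (Fin.succ_ne_zero j), mul_zero]

theorem pd_sb0 (l : Fin N) (c : Po N k) :
    pderiv l (sb0 M c) = ∑ i, C (M i l) * sb0 M (pderiv i c) := by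
  classical
  induction c using MvPolynomial.induction_on with
  | C a =>
    rw [sb0_C, pderiv_C]
    simp
  | add p q hp hq =>
    rw [map_add, map_add, hp, hq, ← Finset.sum_add_distrib]
    refine Finset.sum_congr rfl fun i _ => ?_
    rw [map_add, map_add, mul_add]
  | mul_X p i hp =>
    rw [map_mul, pderiv_mul, hp]
    have h1 : pderiv l (sb0 M (X i)) = C (M i l) := by
      rw [sb0_X, map_sum, Finset.sum_eq_single l]
      · rw [pderiv_C_mul, pderiv_X_self, mul_one]
      · intro j _ hj
        rw [pderiv_C_mul, pderiv_X_of_ne hj, mul_zero]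
      · intro h
        exact absurd (Finset.mem_univ l) h
    have h2 : ∀ j, sb0 M (pderiv j (p * X i)) = sb0 M (pderiv j p) * sb0 M (X i) +
        sb0 M p * (if j = i then 1 else 0) := by
      intro j
      rw [pderiv_mul, map_add, map_mul, map_mul]
      refine congrArg₂ (· + ·) rfl (congrArg₂ (· * ·) rfl ?_)
      by_cases hj : j = i
      · rw [if_pos hj, hj, pderiv_X_self, map_one]
      · rw [if_neg hj, pderiv_X_of_ne (Ne.symm hj), map_zero]
    simp_rw [h2, mul_add, Finset.sum_add_distrib, Finset.sum_mul]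
    rw [h1]
    refine congrArg₂ (· + ·) ?_ ?_
    · refine Finset.sum_congr rfl fun j _ => ?_
      ring
    · rw [Finset.sum_eq_single i]
      · rw [if_pos rfl]
        ring
      · intro j _ hj
        rw [if_neg hj, mul_zero, mul_zero]
      · intro h
        exact absurd (Finset.mem_univ i) h

theorem eval_sb0 (x : Fin N → k) (c : Po N k) :
    eval x (sb0 M c) = eval (fun i => ∑ j, M i j * x j) c := by
  induction c using MvPolynomial.induction_on with
  | C a => rw [sb0_C, eval_C, eval_C]
  | add p q hp hq => rw [map_add, map_add, hp, hq, map_add]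
  | mul_X p i hp =>
    rw [map_mul, map_mul, hp, map_mul, sb0_X, map_sum, eval_X]
    simp

/-- a matrix whose columns are not zeros of `h` -/
theorem exists_mat [Infinite k] (h : Po N k) (hh : h ≠ 0) :
    ∃ M : Matrix (Fin N) (Fin N) k, IsUnit M.det ∧ ∀ l, eval (fun i => M i l) h ≠ 0 := by
  let F : MvPolynomial (Fin N × Fin N) k :=
    (∏ l, rename (fun i => (i, l)) h) * (Matrix.mvPolynomialX (Fin N) (Fin N) k).det
  have hF : F ≠ 0 := by
    refine mul_ne_zero (Finset.prod_ne_zero_iff.2 fun l _ => ?_)
      (Matrix.det_mvPolynomialX_ne_zero (Fin N) k)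
    intro h0
    apply hh
    apply rename_injective (fun i : Fin N => (i, l)) (fun a b hab => (Prod.mk.inj hab).1)
    rw [h0, map_zero]
  obtain ⟨x, hx⟩ : ∃ x, eval x F ≠ 0 := by
    by_contra hcon
    push Not at hcon
    exact hF (MvPolynomial.funext fun x => by rw [hcon x, map_zero])
  rw [map_mul, map_prod] at hx
  refine ⟨Matrix.of fun i j => x (i, j), ?_, fun l => ?_⟩
  · rw [isUnit_iff_ne_zero]
    have h1 := right_ne_zero_of_mul hx
    rw [RingHom.map_det] at h1
    have h2 : (eval x).mapMatrix (Matrix.mvPolynomialX (Fin N) (Fin N) k) =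
        Matrix.of fun i j => x (i, j) := by
      ext i j
      simp [Matrix.mvPolynomialX]
    rw [h2] at h1
    exact h1
  · have h1 := Finset.prod_ne_zero_iff.1 (left_ne_zero_of_mul hx) l (Finset.mem_univ l)
    rw [eval_rename] at h1
    exact h1

end

end Pool.Agent.H94.VZ
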